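import Mathlib

set_option autoImplicit false

/-!
# Balog-Szemeredi-Gowers (paths of length three)
-/

namespace Pool.Agent.EMS47

open Finset
open scoped Pointwise

variable {G : Type*} [AddCommGroup G] [DecidableEq G]

/-- popular vertices -/
lemma bsg_step1 {α : Type*} (A : Finset α) (d : α → ℝ) (p n : ℝ)
    (hn : (A.card : ℝ) = n) (hd : p * n ^ 2 ≤ ∑ x ∈ A, d x) (hp : 0 ≤ p) :
    p * n ^ 2 / 2 ≤ ∑ x ∈ A.filter (fun x => p * n / 2 ≤ d x), d x := by
  classical
  have h1 := Finset.sum_filter_add_sum_filter_not A (fun x => p * n / 2 ≤ d x) d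
  have h2 : ∑ x ∈ A.filter (fun x => ¬ (p * n / 2 ≤ d x)), d x
      ≤ ∑ x ∈ A.filter (fun x => ¬ (p * n / 2 ≤ d x)), (p * n / 2) := by
    apply Finset.sum_le_sum
    intro x hx
    rw [Finset.mem_filter] at hx
    linarith [not_le.mp hx.2]
  have h3 : ∑ x ∈ A.filter (fun x => ¬ (p * n / 2 ≤ d x)), (p * n / 2) ≤ n * (p * n / 2) := by
    rw [Finset.sum_const, nsmul_eq_mul]
    have hn0 : 0 ≤ n := by rw [← hn]; positivity
    apply mul_le_mul_of_nonneg_right _ (by positivity)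
    rw [← hn]
    exact_mod_cast Finset.card_filter_le _ _
  nlinarith

/-- counting pairs through a relation, both orders -/
lemma card_pairs_comm {α β : Type*} (X : Finset α) (Y : Finset β) (R : α → β → Prop)
    [∀ a b, Decidable (R a b)] :
    ∑ x ∈ X, ((Y.filter (fun y => R x y)).card : ℝ)
      = ∑ y ∈ Y, ((X.filter (fun x => R x y)).card : ℝ) := by
  have := Finset.sum_card_bipartiteAbove_eq_sum_card_bipartiteBelow (s := X) (t := Y) R
  unfold Finset.bipartiteAbove Finset.bipartiteBelow at this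
  exact_mod_cast this

theorem bsg_graph {α : Type*} [DecidableEq α] (A : Finset α) (hA : A.Nonempty)
    (R : α → α → Prop) [∀ a b, Decidable (R a b)] (p : ℝ) (hp : 0 < p)
    (hR : p * (A.card : ℝ) ^ 2 ≤ ∑ x ∈ A, ((A.filter (fun y => R x y)).card : ℝ)) :
    ∃ A' ⊆ A, ∃ B' ⊆ A, p / 8 * (A.card : ℝ) ≤ A'.card ∧ p / 4 * (A.card : ℝ) ≤ B'.card ∧
      ∀ x ∈ A', ∀ y ∈ B', p ^ 5 / 4096 * (A.card : ℝ) ^ 2 ≤
        (((A ×ˢ A).filter (fun q : α × α => R x q.2 ∧ R q.1 q.2 ∧ R q.1 y)).card : ℝ) := by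
  set n : ℝ := (A.card : ℝ) with hn
  have hn0 : 0 < n := by rw [hn]; exact_mod_cast hA.card_pos
  set X1 := A.filter (fun x => p * n / 2 ≤ ((A.filter (fun y => R x y)).card : ℝ)) with hX1
  have h1 : p * n ^ 2 / 2 ≤ ∑ x ∈ X1, ((A.filter (fun y => R x y)).card : ℝ) :=
    bsg_step1 A (fun x => ((A.filter (fun y => R x y)).card : ℝ)) p n rfl hR hp.le
  have hX1A : X1 ⊆ A := Finset.filter_subset _ _
  -- M y
  let M : α → Finset α := fun y => X1.filter (fun x => R x y)
  have h2 : p * n ^ 2 / 2 ≤ ∑ y ∈ A, ((M y).card : ℝ) := by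
    rw [← card_pairs_comm X1 A R]; exact h1
  have h3 : p ^ 2 * n ^ 3 / 4 ≤ ∑ y ∈ A, ((M y).card : ℝ) ^ 2 := by
    have hcs := sq_sum_le_card_mul_sum_sq (s := A) (f := fun y => ((M y).card : ℝ))
    have h4 : (p * n ^ 2 / 2) ^ 2 ≤ (∑ y ∈ A, ((M y).card : ℝ)) ^ 2 :=
      pow_le_pow_left₀ (by positivity) h2 2
    have h5 : (p * n ^ 2 / 2) ^ 2 ≤ n * ∑ y ∈ A, ((M y).card : ℝ) ^ 2 := le_trans h4 hcs
    have h6 : n * (p ^ 2 * n ^ 3 / 4) ≤ n * ∑ y ∈ A, ((M y).card : ℝ) ^ 2 := by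
      calc n * (p ^ 2 * n ^ 3 / 4) = (p * n ^ 2 / 2) ^ 2 := by ring
        _ ≤ _ := h5
    exact le_of_mul_le_mul_left h6 hn0
  -- bad pairs
  let Bad : Finset (α × α) := (X1 ×ˢ X1).filter
    (fun q => ((A.filter (fun y => R q.1 y ∧ R q.2 y)).card : ℝ) < p ^ 3 * n / 128)
  have h4 : ∑ y ∈ A, ((Bad.filter (fun q => R q.1 y ∧ R q.2 y)).card : ℝ) ≤ p ^ 3 * n ^ 3 / 128 := by
    rw [← card_pairs_comm Bad A (fun q y => R q.1 y ∧ R q.2 y)]
    calc ∑ q ∈ Bad, ((A.filter (fun y => R q.1 y ∧ R q.2 y)).card : ℝ)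
        ≤ ∑ q ∈ Bad, (p ^ 3 * n / 128) := by
          apply Finset.sum_le_sum
          intro q hq
          exact (Finset.mem_filter.mp hq).2.le
      _ = (Bad.card : ℝ) * (p ^ 3 * n / 128) := by rw [Finset.sum_const, nsmul_eq_mul]
      _ ≤ (n * n) * (p ^ 3 * n / 128) := by
          apply mul_le_mul_of_nonneg_right _ (by positivity)
          have hb : Bad.card ≤ A.card * A.card := by
            calc Bad.card ≤ (X1 ×ˢ X1).card := Finset.card_filter_le _ _
              _ = X1.card * X1.card := Finset.card_product _ _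
              _ ≤ A.card * A.card := Nat.mul_le_mul (Finset.card_le_card hX1A)
                (Finset.card_le_card hX1A)
          rw [hn]; exact_mod_cast hb
      _ = p ^ 3 * n ^ 3 / 128 := by ring
  -- choice of y
  obtain ⟨y0, hy0A, hy0⟩ : ∃ y ∈ A, p ^ 2 * n ^ 2 / 8 ≤
      ((M y).card : ℝ) ^ 2 - (16 / p) * ((Bad.filter (fun q => R q.1 y ∧ R q.2 y)).card : ℝ) := by
    by_contra hcon
    push Not at hcon
    have hlt : ∑ y ∈ A, (((M y).card : ℝ) ^ 2 -
        (16 / p) * ((Bad.filter (fun q => R q.1 y ∧ R q.2 y)).card : ℝ))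
        < ∑ y ∈ A, (p ^ 2 * n ^ 2 / 8) := Finset.sum_lt_sum_of_nonempty hA hcon
    rw [Finset.sum_sub_distrib, ← Finset.mul_sum, Finset.sum_const, nsmul_eq_mul] at hlt
    have h5 : (16 / p) * ∑ y ∈ A, ((Bad.filter (fun q => R q.1 y ∧ R q.2 y)).card : ℝ)
        ≤ (16 / p) * (p ^ 3 * n ^ 3 / 128) := mul_le_mul_of_nonneg_left h4 (by positivity)
    have h6 : (16 / p) * (p ^ 3 * n ^ 3 / 128) = p ^ 2 * n ^ 3 / 8 := by
      field_simp; ring
    have h7 : (A.card : ℝ) * (p ^ 2 * n ^ 2 / 8) = p ^ 2 * n ^ 3 / 8 := by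
      rw [← hn]; ring
    rw [h7] at hlt
    linarith
  set m : ℝ := ((M y0).card : ℝ) with hm
  have hmsq : p ^ 2 * n ^ 2 / 8 ≤ m ^ 2 := by
    have : 0 ≤ (16 / p) * ((Bad.filter (fun q => R q.1 y0 ∧ R q.2 y0)).card : ℝ) := by positivity
    linarith
  have hm0 : 0 ≤ m := by rw [hm]; positivity
  have hm1 : p * n / 4 ≤ m := by
    apply le_of_sq_le_sq _ hm0
    calc (p * n / 4) ^ 2 ≤ p ^ 2 * n ^ 2 / 8 := by nlinarith [sq_nonneg (p * n)]
      _ ≤ m ^ 2 := hmsq
  have hmpos : 0 < m := lt_of_lt_of_le (by positivity) hm1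
  have hbad : ((Bad.filter (fun q => R q.1 y0 ∧ R q.2 y0)).card : ℝ) ≤ p / 16 * m ^ 2 := by
    have h5 : (16 / p) * ((Bad.filter (fun q => R q.1 y0 ∧ R q.2 y0)).card : ℝ) ≤ m ^ 2 := by
      have : 0 ≤ p ^ 2 * n ^ 2 / 8 := by positivity
      linarith
    have h6 := mul_le_mul_of_nonneg_left h5 (show 0 ≤ p / 16 by positivity)
    have h7 : p / 16 * ((16 / p) * ((Bad.filter (fun q => R q.1 y0 ∧ R q.2 y0)).card : ℝ))
      = ((Bad.filter (fun q => R q.1 y0 ∧ R q.2 y0)).card : ℝ) := by field_simp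
    linarith
  -- number of bad partners
  let bp : α → Finset α := fun x => (M y0).filter (fun x' => (x, x') ∈ Bad)
  have hMA : M y0 ⊆ A := fun x hx => hX1A (Finset.mem_filter.mp hx).1
  have hbp : ∑ x ∈ M y0, ((bp x).card : ℝ) ≤ p / 16 * m ^ 2 := by
    refine le_trans ?_ hbad
    have : ∑ x ∈ M y0, (bp x).card ≤ (Bad.filter (fun q => R q.1 y0 ∧ R q.2 y0)).card := by
      rw [← Finset.card_sigma]
      apply Finset.card_le_card_of_injOn (fun s : (_ : α) × α => (s.1, s.2))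
      · intro s hs
        rw [Finset.mem_coe, Finset.mem_sigma] at hs
        obtain ⟨hs1, hs2⟩ := hs
        rw [Finset.mem_filter] at hs2
        rw [Finset.mem_coe, Finset.mem_filter]
        exact ⟨hs2.2, (Finset.mem_filter.mp hs1).2, (Finset.mem_filter.mp hs2.1).2⟩
      · rintro ⟨a, b⟩ _ ⟨c, d⟩ _ h
        simp only [Prod.mk.injEq] at h
        obtain ⟨rfl, rfl⟩ := h
        rfl
    exact_mod_cast this
  set A' := (M y0).filter (fun x => ((bp x).card : ℝ) ≤ p / 8 * m) with hA'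
  have hA'M : A' ⊆ M y0 := Finset.filter_subset _ _
  have hA'card : m / 2 ≤ (A'.card : ℝ) := by
    have h5 : (p / 8 * m) * (((M y0).filter (fun x => ¬ ((bp x).card : ℝ) ≤ p / 8 * m)).card : ℝ)
        ≤ p / 16 * m ^ 2 := by
      refine le_trans ?_ hbp
      calc (p / 8 * m) * (((M y0).filter (fun x => ¬ ((bp x).card : ℝ) ≤ p / 8 * m)).card : ℝ)
          = ∑ x ∈ (M y0).filter (fun x => ¬ ((bp x).card : ℝ) ≤ p / 8 * m), (p / 8 * m) := by
            rw [Finset.sum_const, nsmul_eq_mul, mul_comm]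
        _ ≤ ∑ x ∈ (M y0).filter (fun x => ¬ ((bp x).card : ℝ) ≤ p / 8 * m), ((bp x).card : ℝ) := by
            apply Finset.sum_le_sum
            intro x hx
            exact (not_le.mp (Finset.mem_filter.mp hx).2).le
        _ ≤ ∑ x ∈ M y0, ((bp x).card : ℝ) := by
            apply Finset.sum_le_sum_of_subset_of_nonneg (Finset.filter_subset _ _)
            intros; positivity
    have h6 : (((M y0).filter (fun x => ¬ ((bp x).card : ℝ) ≤ p / 8 * m)).card : ℝ) ≤ m / 2 := by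
      have h7 : (p / 8 * m) * (((M y0).filter (fun x => ¬ ((bp x).card : ℝ) ≤ p / 8 * m)).card : ℝ)
        ≤ (p / 8 * m) * (m / 2) := by
        calc _ ≤ p / 16 * m ^ 2 := h5
          _ = _ := by ring
      exact le_of_mul_le_mul_left h7 (by positivity)
    have h8 : (A'.card : ℝ) + (((M y0).filter (fun x => ¬ ((bp x).card : ℝ) ≤ p / 8 * m)).card : ℝ)
        = m := by
      rw [hm, hA']
      exact_mod_cast Finset.card_filter_add_card_filter_not (s := M y0)
        (fun x => ((bp x).card : ℝ) ≤ p / 8 * m)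
    linarith
  -- B'
  set B' := A.filter (fun y => p * m / 4 ≤ (((M y0).filter (fun x => R x y)).card : ℝ)) with hB'
  have hB'card : p * n / 4 ≤ (B'.card : ℝ) := by
    have h5 : m * (p * n / 2) ≤ ∑ y ∈ A, (((M y0).filter (fun x => R x y)).card : ℝ) := by
      rw [← card_pairs_comm (M y0) A R]
      calc m * (p * n / 2) = ∑ x ∈ M y0, (p * n / 2) := by
            rw [Finset.sum_const, nsmul_eq_mul]
        _ ≤ _ := by
            apply Finset.sum_le_sum
            intro x hx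
            exact (Finset.mem_filter.mp (Finset.mem_filter.mp hx).1).2
    have h6 : ∑ y ∈ A, (((M y0).filter (fun x => R x y)).card : ℝ) ≤
        (B'.card : ℝ) * m + n * (p * m / 4) := by
      rw [← Finset.sum_filter_add_sum_filter_not A
        (fun y => p * m / 4 ≤ (((M y0).filter (fun x => R x y)).card : ℝ))]
      apply add_le_add
      · calc ∑ y ∈ B', (((M y0).filter (fun x => R x y)).card : ℝ) ≤ ∑ y ∈ B', m := by
              apply Finset.sum_le_sum
              intro y _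
              rw [hm]
              exact_mod_cast Finset.card_filter_le _ _
          _ = _ := by rw [Finset.sum_const, nsmul_eq_mul]
      · calc _ ≤ ∑ y ∈ A.filter (fun y => ¬ p * m / 4 ≤
                (((M y0).filter (fun x => R x y)).card : ℝ)), (p * m / 4) := by
              apply Finset.sum_le_sum
              intro y hy
              exact (not_le.mp (Finset.mem_filter.mp hy).2).le
          _ = _ := by rw [Finset.sum_const, nsmul_eq_mul]
          _ ≤ _ := by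
              apply mul_le_mul_of_nonneg_right _ (by positivity)
              rw [hn]
              exact_mod_cast Finset.card_filter_le _ _
    have h7 : m * (p * n / 4) ≤ m * (B'.card : ℝ) := by nlinarith
    exact le_of_mul_le_mul_left h7 hmpos
  refine ⟨A', hA'M.trans hMA, B', Finset.filter_subset _ _, ?_, ?_, ?_⟩
  · calc p / 8 * n = (p * n / 4) / 2 := by ring
      _ ≤ m / 2 := by linarith
      _ ≤ _ := hA'card
  · calc p / 4 * n = p * n / 4 := by ring
      _ ≤ _ := hB'card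
  · intro x hx y hy
    have hxM : x ∈ M y0 := hA'M hx
    have hxX1 : x ∈ X1 := (Finset.mem_filter.mp hxM).1
    -- good middle vertices
    set Gd := (M y0).filter (fun x' => R x' y ∧ (x, x') ∉ Bad) with hGd
    have hGdcard : p * m / 8 ≤ (Gd.card : ℝ) := by
      have h5 : ((M y0).filter (fun x' => R x' y)) ⊆ Gd ∪ bp x := by
        intro x' hx'
        rw [Finset.mem_filter] at hx'
        rw [Finset.mem_union, hGd, Finset.mem_filter]
        by_cases hb : (x, x') ∈ Bad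
        · right
          exact Finset.mem_filter.mpr ⟨hx'.1, hb⟩
        · left
          exact ⟨hx'.1, hx'.2, hb⟩
      have h6 : (((M y0).filter (fun x' => R x' y)).card : ℝ) ≤ (Gd.card : ℝ) + ((bp x).card : ℝ) := by
        exact_mod_cast le_trans (Finset.card_le_card h5) (Finset.card_union_le _ _)
      have h7 := (Finset.mem_filter.mp hy).2
      have h8 := (Finset.mem_filter.mp hx).2
      linarith
    have hin : ∑ x' ∈ Gd, ((A.filter (fun y'' => R x y'' ∧ R x' y'')).card : ℝ) ≤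
        (((A ×ˢ A).filter (fun q : α × α => R x q.2 ∧ R q.1 q.2 ∧ R q.1 y)).card : ℝ) := by
      have : ∑ x' ∈ Gd, (A.filter (fun y'' => R x y'' ∧ R x' y'')).card ≤
          ((A ×ˢ A).filter (fun q : α × α => R x q.2 ∧ R q.1 q.2 ∧ R q.1 y)).card := by
        rw [← Finset.card_sigma]
        apply Finset.card_le_card_of_injOn (fun s : (_ : α) × α => (s.1, s.2))
        · intro s hs
          rw [Finset.mem_coe, Finset.mem_sigma] at hs
          obtain ⟨hs1, hs2⟩ := hs
          rw [Finset.mem_filter] at hs1 hs2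
          rw [Finset.mem_coe, Finset.mem_filter, Finset.mem_product]
          exact ⟨⟨hMA hs1.1, hs2.1⟩, hs2.2.1, hs2.2.2, hs1.2.1⟩
        · rintro ⟨a, b⟩ _ ⟨c, d⟩ _ h
          simp only [Prod.mk.injEq] at h
          obtain ⟨rfl, rfl⟩ := h
          rfl
      exact_mod_cast this
    refine le_trans ?_ hin
    calc p ^ 5 / 4096 * n ^ 2 = (p * (p * n / 4) / 8) * (p ^ 3 * n / 128) := by ring
      _ ≤ (p * m / 8) * (p ^ 3 * n / 128) := by
          apply mul_le_mul_of_nonneg_right _ (by positivity)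
          have := mul_le_mul_of_nonneg_left hm1 hp.le
          linarith
      _ ≤ (Gd.card : ℝ) * (p ^ 3 * n / 128) :=
          mul_le_mul_of_nonneg_right hGdcard (by positivity)
      _ = ∑ x' ∈ Gd, (p ^ 3 * n / 128) := by rw [Finset.sum_const, nsmul_eq_mul]
      _ ≤ _ := by
          apply Finset.sum_le_sum
          intro x' hx'
          rw [hGd, Finset.mem_filter] at hx'
          have hx'X1 : x' ∈ X1 := (Finset.mem_filter.mp hx'.1).1
          have hnb := hx'.2.2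
          by_contra hlt
          exact hnb (Finset.mem_filter.mpr ⟨Finset.mem_product.mpr ⟨hxX1, hx'X1⟩, not_le.mp hlt⟩)

/-- **Balog-Szemeredi-Gowers**, sums along a dense set of pairs. -/
theorem bsg (A S : Finset G) (hA : A.Nonempty) (K p : ℝ) (hp : 0 < p) (hp1 : p ≤ 1)
    (hS : (S.card : ℝ) ≤ K * A.card)
    (hpairs : p * (A.card : ℝ) ^ 2 ≤
      (((A ×ˢ A).filter (fun ab : G × G => ab.1 + ab.2 ∈ S)).card : ℝ)) :
    ∃ A' ⊆ A, ∃ B' ⊆ A, p / 8 * (A.card : ℝ) ≤ A'.card ∧ p / 4 * (A.card : ℝ) ≤ B'.card ∧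
      ((A' + B').card : ℝ) ≤ 4096 * K ^ 3 / p ^ 5 * A.card := by
  have hR : p * (A.card : ℝ) ^ 2 ≤ ∑ x ∈ A, ((A.filter (fun y => x + y ∈ S)).card : ℝ) := by
    refine le_trans hpairs ?_
    have : ((A ×ˢ A).filter (fun ab : G × G => ab.1 + ab.2 ∈ S)).card
        = ∑ x ∈ A, (A.filter (fun y => x + y ∈ S)).card := by
      rw [Finset.card_filter, Finset.sum_product]
      apply Finset.sum_congr rfl
      intro x _
      rw [Finset.card_filter]
    rw [this]
    push_cast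
    exact le_refl _
  obtain ⟨A', hA', B', hB', h1, h2, h3⟩ := bsg_graph A hA (fun x y => x + y ∈ S) p hp hR
  refine ⟨A', hA', B', hB', h1, h2, ?_⟩
  have hn0 : (0 : ℝ) < (A.card : ℝ) := by exact_mod_cast hA.card_pos
  -- representatives
  have hrep : ∀ z ∈ A' + B', ∃ q : G × G, q.1 ∈ A' ∧ q.2 ∈ B' ∧ q.1 + q.2 = z := by
    intro z hz
    obtain ⟨a, ha, b, hb, rfl⟩ := Finset.mem_add.mp hz
    exact ⟨(a, b), ha, hb, rfl⟩
  choose! f hf using hrep
  let W : G → Finset (G × G) := fun z => (A ×ˢ A).filter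
    (fun q : G × G => (f z).1 + q.2 ∈ S ∧ q.1 + q.2 ∈ S ∧ q.1 + (f z).2 ∈ S)
  have h4 : ∑ z ∈ A' + B', (W z).card ≤ (S ×ˢ S ×ˢ S).card := by
    rw [← Finset.card_sigma]
    apply Finset.card_le_card_of_injOn
      (fun s : (_ : G) × (G × G) => ((f s.1).1 + s.2.2, s.2.1 + s.2.2, s.2.1 + (f s.1).2))
    · intro s hs
      rw [Finset.mem_coe, Finset.mem_sigma] at hs
      obtain ⟨hs1, hs2⟩ := hs
      rw [Finset.mem_filter] at hs2
      rw [Finset.mem_coe, Finset.mem_product, Finset.mem_product]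
      exact ⟨hs2.2.1, hs2.2.2.1, hs2.2.2.2⟩
    · rintro ⟨z, q⟩ hz ⟨z', q'⟩ hz' h
      rw [Finset.mem_coe, Finset.mem_sigma] at hz hz'
      simp only [Prod.mk.injEq] at h
      obtain ⟨e1, e2, e3⟩ := h
      have hzz : z = z' := by
        rw [← (hf z hz.1).2.2, ← (hf z' hz'.1).2.2]
        calc (f z).1 + (f z).2 = ((f z).1 + q.2) - (q.1 + q.2) + (q.1 + (f z).2) := by abel
          _ = ((f z').1 + q'.2) - (q'.1 + q'.2) + (q'.1 + (f z').2) := by rw [e1, e2, e3]
          _ = (f z').1 + (f z').2 := by abel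
      subst hzz
      have e4 : q.2 = q'.2 := add_left_cancel e1
      have e5 : q.1 = q'.1 := add_right_cancel e3
      have : q = q' := Prod.ext e5 e4
      subst this
      rfl
  have h5 : ((A' + B').card : ℝ) * (p ^ 5 / 4096 * (A.card : ℝ) ^ 2) ≤ (S.card : ℝ) ^ 3 := by
    calc ((A' + B').card : ℝ) * (p ^ 5 / 4096 * (A.card : ℝ) ^ 2)
        = ∑ z ∈ A' + B', (p ^ 5 / 4096 * (A.card : ℝ) ^ 2) := by
          rw [Finset.sum_const, nsmul_eq_mul]
      _ ≤ ∑ z ∈ A' + B', ((W z).card : ℝ) := by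
          apply Finset.sum_le_sum
          intro z hz
          exact h3 _ (hf z hz).1 _ (hf z hz).2.1
      _ ≤ ((S ×ˢ S ×ˢ S).card : ℝ) := by exact_mod_cast h4
      _ = (S.card : ℝ) ^ 3 := by
          rw [Finset.card_product, Finset.card_product]; push_cast; ring
  have h6 : (S.card : ℝ) ^ 3 ≤ (K * A.card) ^ 3 := pow_le_pow_left₀ (by positivity) hS 3
  have h7 : ((A' + B').card : ℝ) * (p ^ 5 / 4096 * (A.card : ℝ) ^ 2) ≤
      (4096 * K ^ 3 / p ^ 5 * A.card) * (p ^ 5 / 4096 * (A.card : ℝ) ^ 2) := by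
    calc _ ≤ (K * A.card) ^ 3 := le_trans h5 h6
      _ = _ := by field_simp
  exact le_of_mul_le_mul_right h7 (by positivity)

/-- BSG with small difference set. -/
theorem bsg_diff (A S : Finset G) (hA : A.Nonempty) (K p : ℝ) (hp : 0 < p) (hp1 : p ≤ 1)
    (hS : (S.card : ℝ) ≤ K * A.card)
    (hpairs : p * (A.card : ℝ) ^ 2 ≤
      (((A ×ˢ A).filter (fun ab : G × G => ab.1 + ab.2 ∈ S)).card : ℝ)) :
    ∃ A' ⊆ A, p / 8 * (A.card : ℝ) ≤ A'.card ∧
      ((A' - A').card : ℝ) ≤ 2 ^ 29 * K ^ 6 / p ^ 12 * A'.card := by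
  obtain ⟨A', hA', B', hB', h1, h2, h3⟩ := bsg A S hA K p hp hp1 hS hpairs
  refine ⟨A', hA', h1, ?_⟩
  have hn0 : (0 : ℝ) < (A.card : ℝ) := by exact_mod_cast hA.card_pos
  have hB0 : (0 : ℝ) < (B'.card : ℝ) := lt_of_lt_of_le (by positivity) h2
  have hK0 : 0 ≤ 4096 * K ^ 3 / p ^ 5 * A.card := le_trans (by positivity) h3
  have hr : (((A' - A').card : ℝ)) * (B'.card : ℝ) ≤ ((A' + B').card : ℝ) * ((A' + B').card : ℝ) := by
    exact_mod_cast Finset.ruzsa_triangle_inequality_sub_add_add A' B' A'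
  have h4 : (((A' - A').card : ℝ)) * (B'.card : ℝ) ≤ (4096 * K ^ 3 / p ^ 5 * A.card) ^ 2 := by
    calc _ ≤ _ := hr
      _ ≤ (4096 * K ^ 3 / p ^ 5 * A.card) * (4096 * K ^ 3 / p ^ 5 * A.card) :=
        mul_le_mul h3 h3 (by positivity) hK0
      _ = _ := by ring
  have h5 : ((A' - A').card : ℝ) * (p / 4 * A.card) ≤ (4096 * K ^ 3 / p ^ 5 * A.card) ^ 2 :=
    le_trans (mul_le_mul_of_nonneg_left h2 (by positivity)) h4
  have h6 : ((A' - A').card : ℝ) ≤ 2 ^ 26 * K ^ 6 / p ^ 11 * A.card := by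
    have h7 : ((A' - A').card : ℝ) * (p / 4 * A.card) ≤
        (2 ^ 26 * K ^ 6 / p ^ 11 * A.card) * (p / 4 * A.card) := by
      calc _ ≤ _ := h5
        _ = _ := by field_simp; ring
    exact le_of_mul_le_mul_right h7 (by positivity)
  have h8 : (A.card : ℝ) ≤ 8 / p * A'.card := by
    have := mul_le_mul_of_nonneg_left h1 (show 0 ≤ 8 / p by positivity)
    calc (A.card : ℝ) = 8 / p * (p / 8 * A.card) := by field_simp
      _ ≤ _ := this
  calc ((A' - A').card : ℝ) ≤ 2 ^ 26 * K ^ 6 / p ^ 11 * A.card := h6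
    _ ≤ 2 ^ 26 * K ^ 6 / p ^ 11 * (8 / p * A'.card) :=
        mul_le_mul_of_nonneg_left h8 (by positivity)
    _ = _ := by field_simp; ring

end Pool.Agent.EMS47
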